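import Mathlib
import Pool.Agent.Helper983.SL.Smooth

set_option autoImplicit false

/-!
# Smooth Lipschitz approximation fails for every order of smoothness at once

There are a Banach space `X` with a `C^∞`-smooth Lipschitz bump function, a Banach space `Y` and a
Lipschitz map `f : X → Y` such that, for every `k ∈ {1, 2, …, ∞}`, no `C^k`-smooth Lipschitz map
`g : X → Y` stays at a bounded distance from `f`.
-/

namespace Pool.Agent.Results.MP_91c4ba_an.AllOrders

open scoped ContDiff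

/-- `X` admits a `C^∞`-smooth Lipschitz bump function. -/
def HasSmoothLipschitzBump (X : Type) [NormedAddCommGroup X] [NormedSpace ℝ X] : Prop :=
  ∃ b : X → ℝ, ContDiff ℝ ∞ b ∧ (∃ L, LipschitzWith L b) ∧
    (∃ x, b x ≠ 0) ∧ Bornology.IsBounded (Function.support b)

/-- **Negative answer for every order `k ≥ 1` (including `k = ∞`) with one space and one map.** -/
theorem result : ∃ (X Y : Type) (_ : NormedAddCommGroup X) (_ : NormedSpace ℝ X)
    (_ : CompleteSpace X) (_ : NormedAddCommGroup Y) (_ : NormedSpace ℝ Y) (_ : CompleteSpace Y),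
    HasSmoothLipschitzBump X ∧
    ∃ f : X → Y, (∃ L, LipschitzWith L f) ∧
      (∃ ι : Y →ₗᵢ[ℝ] X, ∀ y, f (ι y) = y) ∧
      ∀ k : ℕ∞, 1 ≤ k → ∀ g : X → Y, ContDiff ℝ (k : WithTop ℕ∞) g → (∃ L, LipschitzWith L g) →
        ∀ C : ℝ, ∃ x, C < ‖f x - g x‖ := by
  obtain ⟨X, Y, i1, i2, i3, i4, i5, i6, hb, f, hf, hι, H⟩ :=
    Pool.Agent.Helper983.SL.final_top
  refine ⟨X, Y, i1, i2, i3, i4, i5, i6, hb, f, hf, hι, fun k hk g hg hgL C => ?_⟩
  by_contra hn
  push Not at hn
  refine H g (hg.of_le ?_) hgL ⟨C, ?_⟩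
  · exact_mod_cast hk
  · rintro _ ⟨x, rfl⟩
    exact hn x

end Pool.Agent.Results.MP_91c4ba_an.AllOrders
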